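import Pool.Agent.H66.SYM.Basic

/-!
# Module KAY: an element which kills the nonzero weights and does not vanish on the chains
-/

namespace Pool.H66.SYM

open Filter Topology

/-- For small nonzero `x` the numbers `exp (i x q s)`, `s ≠ 0`, are different from `1`. -/
theorem KAY_exp (q : ℕ) (hq : 1 ≤ q) (s : ℝ) (hs : s ≠ 0) :
    ∀ᶠ x : ℝ in 𝓝[≠] 0, Complex.exp ((s * x : ℝ) * Complex.I) ^ q ≠ 1 := by
  have h1 : ∀ᶠ x : ℝ in 𝓝[≠] 0, |(q : ℝ) * (s * x)| < 2 * Real.pi := by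
    have h : Tendsto (fun x : ℝ => |(q : ℝ) * (s * x)|) (𝓝[≠] 0) (𝓝 0) := by
      have h2 : Continuous fun x : ℝ => |(q : ℝ) * (s * x)| := by fun_prop
      have h3 := h2.tendsto 0
      simp only [mul_zero, abs_zero] at h3
      exact h3.mono_left nhdsWithin_le_nhds
    exact h.eventually (gt_mem_nhds (by positivity))
  filter_upwards [h1, self_mem_nhdsWithin] with x hx hx0 hx1
  have hx0' : x ≠ 0 := hx0
  rw [← Complex.exp_nat_mul] at hx1
  rw [Complex.exp_eq_one_iff] at hx1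
  obtain ⟨n, hn⟩ := hx1
  have h4 : (q : ℝ) * (s * x) = n * (2 * Real.pi) := by
    have h5 := congrArg Complex.im hn
    simp at h5
    linarith
  have h6 : (n : ℝ) ≠ 0 := by
    intro h0
    rw [h0, zero_mul] at h4
    have hq' : (q : ℝ) ≠ 0 := by positivity
    exact mul_ne_zero hq' (mul_ne_zero hs hx0') h4
  have h7 : (1 : ℝ) ≤ |(n : ℝ)| := by
    have h8 : n ≠ 0 := by exact_mod_cast h6
    have h9 : 1 ≤ |n| := Int.one_le_abs h8
    have h10 : ((1 : ℤ) : ℝ) ≤ ((|n| : ℤ) : ℝ) := by exact_mod_cast h9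
    simpa using h10
  rw [h4, abs_mul, abs_of_pos (by positivity : (0 : ℝ) < 2 * Real.pi)] at hx
  have hpi : 0 < Real.pi := Real.pi_pos
  nlinarith

/-- The monomials at an archimedean point. -/
theorem KAY_mon {m : ℕ} (θ : Fin m → ℝ) (x : ℝ) (a : Fin m → ℤ) :
    mon (fun j => Complex.exp ((θ j : ℂ) * Complex.I * x)) a =
      Complex.exp (((∑ j, θ j * a j) * x : ℝ) * Complex.I) := by
  simp only [mon, ← Complex.exp_int_mul, ← Complex.exp_sum]
  congr 1
  push_cast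
  rw [Finset.sum_mul, Finset.sum_mul]
  refine Finset.sum_congr rfl fun j _ => ?_
  ring

/-- Vanishing at the identity of an element which satisfies the third property of `ORB`. -/
theorem KAY_van (hCN1 : S_CN1) {A : Aut} {τ : A.Cusp} {m M H : ℕ} (hC : Ctx A τ m M)
    (hH : H ≤ M) {a : Fin m → ℤ} (ha : a ∈ Wt m 0 H) (ha0 : a ≠ 0) {g : A.Pt → ℂ}
    (hg : g ∈ A.RR τ m) (hi : ∀ p, ∃ i : ℕ, i ≤ m.factorial ∧ g p = i) (q : ℕ) (hq : 1 ≤ q)
    (h : ∀ p c, A.Ord τ p c → g p * ∏ σ : Equiv.Perm (Fin m), (mon c (a ∘ σ) ^ q - 1) = 0) :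
    g ⟨A.inf, 1, 1⟩ = 0 := by
  obtain ⟨θ, hmu, hθ⟩ := hC.arch
  have h1 : ∀ σ : Equiv.Perm (Fin m), (∑ j, θ j * (a ∘ σ) j) ≠ 0 := by
    intro σ
    have h2 := Wt_comp ha σ
    refine hθ (a ∘ σ) ?_ h2.1 (h2.2.trans (by exact_mod_cast hH))
    intro h0
    apply ha0
    ext j
    have := congrFun h0 (σ.symm j)
    simpa using this
  have h3 : ∀ᶠ x : ℝ in 𝓝[≠] 0, ∀ σ : Equiv.Perm (Fin m),
      Complex.exp (((∑ j, θ j * (a ∘ σ) j) * x : ℝ) * Complex.I) ^ q ≠ 1 :=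
    eventually_all.2 fun σ => KAY_exp q hq _ (h1 σ)
  obtain ⟨x, hx⟩ := h3.exists
  have hord : A.Ord τ ⟨A.inf, A.u x, 1⟩ (fun j => Complex.exp ((θ j : ℂ) * Complex.I * x)) := by
    unfold AData.Ord
    rw [A.eig_u, hmu, Multiset.map_map]
    rfl
  have h4 := h _ _ hord
  have h5 : (∏ σ : Equiv.Perm (Fin m), (mon (fun j => Complex.exp ((θ j : ℂ) * Complex.I * x))
      (a ∘ σ) ^ q - 1)) ≠ 0 := by
    refine Finset.prod_ne_zero_iff.2 fun σ _ => ?_
    rw [sub_ne_zero, KAY_mon]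
    exact hx σ
  have h6 : g ⟨A.inf, A.u x, 1⟩ = 0 := (mul_eq_zero.1 h4).resolve_right h5
  rw [← hCN1 A τ m M hC g hg m.factorial (fun x => hi _) x]
  exact h6

theorem s_KAY (hORB : S_ORB) (hCN1 : S_CN1) (hCN2 : S_CN2) (hDEG : S_DEG) (hRMU : S_RMU)
    (hRTA : S_RTA) (hBAS : S_BAS) : S_KAY := by
  intro m H
  refine ⟨max H m.factorial, ?_⟩
  intro A τ M hM hC L
  have hHM : H ≤ M := (le_max_left _ _).trans hM
  have hfM : m.factorial ≤ M := (le_max_right _ _).trans hM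
  obtain ⟨-, -, -, hmul, hle, -⟩ := hRMU A τ m (hC.sym 2) hC.hm hC.deg
  obtain ⟨hone, -, -, -, -, -⟩ := hRTA A τ m hC.hm hC.deg
  have h1RR : (1 : A.Pt → ℂ) ∈ A.RR τ m := by
    have h1 : A.tr A.one ∈ A.RR τ m := by
      refine AddSubgroup.subset_closure (Set.mem_image_of_mem _ ?_)
      exact ⟨0, 0, hone⟩
    have h2 : A.tr A.one = 1 := by
      ext p
      have h3 := (hBAS A).2.2.2.1 p
      simp [AData.tr, h3]
    rwa [h2] at h1
  -- the elements for one weight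
  have key : ∀ a ∈ Wt m 0 H, a ≠ 0 → ∃ K ∈ A.RR τ m,
      L.M (fun v => K (A.frob v)) * L.E a = 0 ∧
      ∀ S : Spec A τ m M, ∀ n y, n ∣ S.N → K (S.pt n y) ≠ 0 := by
    intro a ha ha0
    obtain ⟨g, hg, hi, ⟨K, hK, hKE, hKg⟩, q, hq, hgq⟩ := hORB A τ m M hC L a ha.1
    refine ⟨K, hK, by simpa using hKE 1, ?_⟩
    intro S n y hn
    apply hKg
    rw [hCN2 A τ m M hC S g hg m.factorial hfM (fun n y _ => hi _) n y hn,
      hDEG A τ m g hg S.v A.inf]
    exact KAY_van hCN1 hC hHM ha ha0 hg hi q hq hgq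
  -- the product
  have hprod : ∀ s : Finset (Fin m → ℤ), (∀ a ∈ s, a ∈ Wt m 0 H ∧ a ≠ 0) → ∃ K ∈ A.RR τ m,
      (∀ a ∈ s, L.M (fun v => K (A.frob v)) * L.E a = 0) ∧
      ∀ S : Spec A τ m M, ∀ n y, n ∣ S.N → K (S.pt n y) ≠ 0 := by
    intro s
    classical
    induction s using Finset.induction_on with
    | empty =>
      intro _
      exact ⟨1, h1RR, by simp, fun S n y _ => one_ne_zero⟩
    | insert b s hb ih =>
      intro hs
      obtain ⟨K, hK, hKE, hKS⟩ := ih fun a ha => hs a (Finset.mem_insert_of_mem ha)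
      obtain ⟨hb1, hb2⟩ := hs b (Finset.mem_insert_self _ _)
      obtain ⟨K', hK', hKE', hKS'⟩ := key b hb1 hb2
      have hM : L.M (fun v => (K * K') (A.frob v)) =
          L.M (fun v => K (A.frob v)) * L.M (fun v => K' (A.frob v)) :=
        L.M_mul _ _ (L.bd K hK) (L.bd K' hK')
      refine ⟨K * K', hmul K hK K' hK', ?_, ?_⟩
      · intro a ha
        rw [hM]
        rcases Finset.mem_insert.1 ha with rfl | ha
        · rw [mul_assoc, hKE', mul_zero]
        · rw [mul_comm (L.M _) (L.M _), mul_assoc, hKE a ha, mul_zero]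
      · intro S n y hn
        exact mul_ne_zero (hKS S n y hn) (hKS' S n y hn)
  obtain ⟨K, hK, hKE, hKS⟩ := hprod ((Wt_finite m 0 H).toFinset.filter fun a => a ≠ 0) (by
    intro a ha
    simpa using ha)
  refine ⟨K, hK, ?_, hKS⟩
  intro a ha ha0
  exact hKE a (by simp [ha, ha0])

end Pool.H66.SYM
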